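import Pool.Agent.R602.AM.Final

/-!
# Amorphous sets with dually Dedekind infinite power set are of projective type

The models `ZermeloAtoms` of Zermelo set theory with atoms (in particular all models of ZF) are
defined in `Pool.Agent.Helper672.ZFA.Statement`, the sets of a model as types in
`Pool.Agent.Helper672.ZFA.Types` and `Pool.Agent.Helper672.ZFA.Power`, amorphous sets (`Amor`) in
`Pool.Agent.R602.AM.Base` and the other notions in `Pool.Agent.R602.AM.Stat`.

The proof is done inside an arbitrary, possibly nonstandard, model. For a function `f` from `P(A)`
onto `P(A)` there is a closure operator of all elements that are algebraic, over a finite set, in the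
structure `(A, f)`. It is a pregeometry, and if it is degenerate, then `f` is injective.
-/

namespace Pool.Agent.Results.MP_90148f_lc.AmorphousProjectiveType

open Pool.Agent.Helper672.ZFA Pool.Agent.R602.AM

universe u

/-- In every model of Zermelo set theory with atoms (hence in every model of ZF), every amorphous
set with a dually Dedekind infinite power set is of projective type. -/
theorem result (M : Type u) [L.Structure M] [ZermeloAtoms M] (A : M) (hA : Amor M (El A))
    (hP : ¬ DDFin M (IPow M (El A))) : ProjType M (El A) :=
  main1 pcs hA hP

end Pool.Agent.Results.MP_90148f_lc.AmorphousProjectiveType
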